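import Mathlib
import Pool.Agent.Helper23.Fill.Defs
import Pool.Agent.Helper23.Fill.PartA
import Pool.Agent.Helper23.Fill.FiniteEx
import Pool.Agent.Helper23.Fill.CountB
import Pool.Agent.Helper23.Fill.CountC

set_option autoImplicit false

open Topology Set Pool.Agent.Helper23.Fill

namespace Pool.Agent.Results.MP_9641f2_gt.FullAnswer

open Cardinal in
lemma card_lt : #ℝ < #(Set ℝ) := by
  rw [mk_set]
  exact cantor _

/-- Full answer to Q1: with `countable` filling the answers to (a), (b), (c) are yes, no, no;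
with `finite` filling they are no, no, no. -/
theorem result.{u, v} :
    -- countable filling, (a): YES, and in fact `D` is the whole product
    (∀ (I : Type u) (X : I → Type v) [∀ i, TopologicalSpace (X i)] (D : Set (∀ i, X i)),
      T1Space (∀ i, X i) → FillsCountable D → (T2Space D ∧ ParacompactSpace D) →
        ∀ i, D = Set.univ ∧ (T2Space (X i) ∧ ParacompactSpace (X i))) ∧
    -- countable filling, (b): NO
    (∃ (I : Type) (X : I → Type) (_ : ∀ i, TopologicalSpace (X i)) (D : Set (∀ i, X i)),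
      T1Space (∀ i, X i) ∧ FillsCountable D ∧ T4Space D ∧ ∃ i, ¬ T4Space (X i)) ∧
    -- countable filling, (c): NO
    (∃ (I : Type) (X : I → Type) (_ : ∀ i, TopologicalSpace (X i)) (D : Set (∀ i, X i)),
      T1Space (∀ i, X i) ∧ FillsCountable D ∧ T35Space D ∧ ∃ i, ¬ T35Space (X i)) ∧
    -- finite filling, (a), (b), (c): NO, by a single example
    (∃ (I : Type) (X : I → Type) (_ : ∀ i, TopologicalSpace (X i)) (D : Set (∀ i, X i)),
      T1Space (∀ i, X i) ∧ FillsFinite D ∧
      ((T2Space D ∧ ParacompactSpace D) ∧ T4Space D ∧ T35Space D) ∧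
      ∃ i, ¬ (T2Space (X i) ∧ ParacompactSpace (X i)) ∧ ¬ T4Space (X i) ∧ ¬ T35Space (X i)) := by
  refine ⟨?_, ?_, ?_, ?_⟩
  · intro I X _ D hT hD hp i
    exact partA I X D hT hD hp.1 hp.2 i
  · refine ⟨Option ℝ, Fac ℝ (Q2 ℝ (Set ℝ)) (Dsc (Option (Set ℝ))), inferInstance,
      lft (DB ℝ (Set ℝ)), inferInstance, ?_, ?_, none, ?_⟩
    · have : Nonempty (Q2 ℝ (Set ℝ)) := ⟨Q2.hi ∅⟩
      apply fillsCountable_lft
      intro J hJ y a
      exact DB_fill J hJ y a
    · have : NormalSpace (DB ℝ (Set ℝ)) := DB_normal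
      have : T4Space (DB ℝ (Set ℝ)) := ⟨⟩
      exact (lftHomeo (DB ℝ (Set ℝ))).isClosedEmbedding.t4Space
    · intro h
      exact Q2.not_normal card_lt h.toNormalSpace
  · refine ⟨Option ℝ, Fac ℝ (Pt ℝ (Set ℝ)) (Dsc (Set ℝ)), inferInstance,
      lft (DC ℝ (Set ℝ)), inferInstance, ?_, ?_, none, ?_⟩
    · have : Nonempty (Pt ℝ (Set ℝ)) := ⟨Pt.inf⟩
      apply fillsCountable_lft
      intro J hJ y a
      exact DC_fill J hJ y a
    · exact (lftHomeo (DC ℝ (Set ℝ))).isEmbedding.t35Space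
    · intro h
      exact Pt.not_completelyRegular card_lt h.toCompletelyRegularSpace
  · refine ⟨Option ℕ, Fac ℕ (Pt ℝ (Set ℝ)) (Dsc (Option (Pt ℝ (Set ℝ)))), inferInstance,
      lft (DFin (Pt ℝ (Set ℝ))), inferInstance, ?_, ?_, none, ?_⟩
    · have : Nonempty (Pt ℝ (Set ℝ)) := ⟨Pt.inf⟩
      apply fillsFinite_lft
      intro J hJ y a
      exact DFin_fill J hJ y a
    · have : T3Space (Pt ℝ (Set ℝ)) := ⟨⟩
      have : ParacompactSpace (DFin (Pt ℝ (Set ℝ))) := inferInstance
      have h1 : ParacompactSpace (lft (DFin (Pt ℝ (Set ℝ)))) :=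
        (lftHomeo (DFin (Pt ℝ (Set ℝ)))).isClosedEmbedding.paracompactSpace
      have h2 : T2Space (lft (DFin (Pt ℝ (Set ℝ)))) :=
        (lftHomeo (DFin (Pt ℝ (Set ℝ)))).isEmbedding.t2Space
      have h3 : T4Space (lft (DFin (Pt ℝ (Set ℝ)))) := inferInstance
      exact ⟨⟨h2, h1⟩, h3, inferInstance⟩
    · have h0 : ¬ CompletelyRegularSpace (Pt ℝ (Set ℝ)) := Pt.not_completelyRegular card_lt
      refine ⟨?_, ?_, ?_⟩
      · rintro ⟨h1, h2⟩
        have : T2Space (Pt ℝ (Set ℝ)) := h1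
        have : ParacompactSpace (Pt ℝ (Set ℝ)) := h2
        have : T4Space (Pt ℝ (Set ℝ)) := inferInstance
        exact h0 inferInstance
      · intro h1
        have : T4Space (Pt ℝ (Set ℝ)) := h1
        exact h0 inferInstance
      · intro h1
        exact h0 h1.toCompletelyRegularSpace

end Pool.Agent.Results.MP_9641f2_gt.FullAnswer
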